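import Mathlib
import Pool.Agent.W662.SK.StmtsA
import Pool.Agent.W662.SK.Basic

set_option autoImplicit false

/-! SK-A7: uniform closeness of the representations. -/

open scoped InnerProductSpace ENNReal

namespace Pool.Agent.W933.SK

open Pool.Agent.W662.SK

noncomputable section

theorem cs_sum (n : ℕ) (x y : ℕ → ℂ) (X Y : ℝ) (hX : 0 ≤ X) (hY : 0 ≤ Y)
    (hx : ∑ k ∈ Finset.range n, ‖x k‖ ^ 2 ≤ X ^ 2) (hy : ∑ k ∈ Finset.range n, ‖y k‖ ^ 2 ≤ Y ^ 2) :
    ‖∑ k ∈ Finset.range n, x k * y k‖ ≤ X * Y := by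
  have h1 : ‖∑ k ∈ Finset.range n, x k * y k‖ ≤ ∑ k ∈ Finset.range n, ‖x k‖ * ‖y k‖ := by
    refine (norm_sum_le _ _).trans (le_of_eq ?_)
    exact Finset.sum_congr rfl fun k _ => norm_mul _ _
  refine h1.trans ?_
  have h2 := Finset.sum_mul_sq_le_sq_mul_sq (Finset.range n) (fun k => ‖x k‖) (fun k => ‖y k‖)
  have h3 : (∑ k ∈ Finset.range n, ‖x k‖ * ‖y k‖) ^ 2 ≤ (X * Y) ^ 2 := by
    rw [mul_pow]
    exact h2.trans (mul_le_mul hx hy (Finset.sum_nonneg fun k _ => sq_nonneg _) (sq_nonneg _))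
  exact (le_abs_self _).trans (abs_le_of_sq_le_sq h3 (mul_nonneg hX hY))

theorem est (n : ℕ) (a b a' b' : ℕ → ℂ) (A B A' B' c d : ℝ) (hA : 0 ≤ A) (hB : 0 ≤ B)
    (hA' : 0 ≤ A') (hB' : 0 ≤ B')
    (ha : ∑ k ∈ Finset.range n, ‖a k‖ ^ 2 ≤ A ^ 2) (hb : ∑ k ∈ Finset.range n, ‖b k‖ ^ 2 ≤ B ^ 2)
    (ha' : ∑ k ∈ Finset.range n, ‖a' k‖ ^ 2 ≤ A' ^ 2)
    (hb' : ∑ k ∈ Finset.range n, ‖b' k‖ ^ 2 ≤ B' ^ 2) :
    ‖∑ k ∈ Finset.range n, ((c : ℂ) * (b' k * a k + a' k * b k) +
      (d : ℂ) * (b' k * b k - a' k * a k))‖ ≤ |c| * (B' * A + A' * B) + |d| * (B' * B + A' * A) := by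
  rw [Finset.sum_add_distrib, ← Finset.mul_sum, ← Finset.mul_sum, Finset.sum_add_distrib,
    Finset.sum_sub_distrib]
  refine (norm_add_le _ _).trans ?_
  rw [norm_mul, norm_mul, Complex.norm_real, Complex.norm_real, Real.norm_eq_abs, Real.norm_eq_abs]
  have h1 := cs_sum n b' a B' A hB' hA hb' ha
  have h2 := cs_sum n a' b A' B hA' hB ha' hb
  have h3 := cs_sum n b' b B' B hB' hB hb' hb
  have h4 := cs_sum n a' a A' A hA' hA ha' ha
  exact add_le_add
    (mul_le_mul_of_nonneg_left ((norm_add_le _ _).trans (add_le_add h1 h2)) (abs_nonneg _))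
    (mul_le_mul_of_nonneg_left ((norm_sub_le _ _).trans (add_le_add h3 h4)) (abs_nonneg _))

theorem mk_cons (p : Fin 3 × Bool) (L : List (Fin 3 × Bool)) :
    (FreeGroup.mk (p :: L) : G3) = lt p * FreeGroup.mk L := rfl

/-- telescoping -/
theorem tele (t r : ℝ) (p0 : Fin 3 × Bool) (L : List (Fin 3 × Bool)) (ξ : K0) :
    rp t (FreeGroup.mk L) ξ - rp r (FreeGroup.mk L) ξ = ∑ k ∈ Finset.range L.length,
      rp t (FreeGroup.mk (L.take k))
        (rp t (lt (L.getD k p0)) (rp r (FreeGroup.mk (L.drop (k + 1))) ξ) -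
          rp r (lt (L.getD k p0)) (rp r (FreeGroup.mk (L.drop (k + 1))) ξ)) := by
  induction L with
  | nil =>
    have h : (FreeGroup.mk [] : G3) = 1 := rfl
    simp only [List.length_nil, Finset.range_zero, Finset.sum_empty, h, map_one]
    exact sub_self _
  | cons p L ih =>
    rw [List.length_cons, Finset.sum_range_succ']
    have e0 : rp t (FreeGroup.mk ((p :: L).take 0))
        (rp t (lt ((p :: L).getD 0 p0)) (rp r (FreeGroup.mk ((p :: L).drop (0 + 1))) ξ) -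
          rp r (lt ((p :: L).getD 0 p0)) (rp r (FreeGroup.mk ((p :: L).drop (0 + 1))) ξ)) =
        rp t (lt p) (rp r (FreeGroup.mk L) ξ) - rp r (lt p) (rp r (FreeGroup.mk L) ξ) := by
      have h : (FreeGroup.mk ((p :: L).take 0) : G3) = 1 := rfl
      rw [h, map_one]
      rfl
    have e1 : ∀ k ∈ Finset.range L.length, rp t (FreeGroup.mk ((p :: L).take (k + 1)))
        (rp t (lt ((p :: L).getD (k + 1) p0)) (rp r (FreeGroup.mk ((p :: L).drop (k + 1 + 1))) ξ) -
          rp r (lt ((p :: L).getD (k + 1) p0)) (rp r (FreeGroup.mk ((p :: L).drop (k + 1 + 1))) ξ)) =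
        rp t (lt p) (rp t (FreeGroup.mk (L.take k))
        (rp t (lt (L.getD k p0)) (rp r (FreeGroup.mk (L.drop (k + 1))) ξ) -
          rp r (lt (L.getD k p0)) (rp r (FreeGroup.mk (L.drop (k + 1))) ξ))) := by
      intro k _
      rw [List.take_succ_cons, mk_cons, map_mul, List.getD_cons_succ, List.drop_succ_cons]
      rfl
    rw [Finset.sum_congr rfl e1, e0, ← map_sum, ← ih, mk_cons, map_mul, map_mul]
    change rp t (lt p) (rp t (FreeGroup.mk L) ξ) - rp r (lt p) (rp r (FreeGroup.mk L) ξ) = _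
    rw [map_sub]
    abel

theorem red_inv {L : List (Fin 3 × Bool)} (h : FreeGroup.IsReduced L) :
    FreeGroup.IsReduced (FreeGroup.invRev L) := by
  unfold FreeGroup.IsReduced FreeGroup.invRev at *
  rw [List.isChain_reverse, List.isChain_map]
  refine h.imp ?_
  intro a b hab h1
  have h2 := hab h1.symm
  simp [h2]

theorem inner_shift (u : K0 ≃ₗᵢ[ℂ] K0) (x ξ : K0) : ⟪x, u ξ⟫_ℂ = ⟪u⁻¹ x, ξ⟫_ℂ := by
  have h1 : u (u⁻¹ x) = x := u.apply_symm_apply x
  calc ⟪x, u ξ⟫_ℂ = ⟪u (u⁻¹ x), u ξ⟫_ℂ := by rw [h1]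
    _ = _ := u.inner_map_map _ _

theorem take_inv (L : List (Fin 3 × Bool)) (k : ℕ) (hk : k ≤ L.length) :
    (FreeGroup.invRev L).take (L.length - k) = FreeGroup.invRev (L.drop k) := by
  have h1 : FreeGroup.invRev L = FreeGroup.invRev (L.drop k) ++ FreeGroup.invRev (L.take k) := by
    rw [← FreeGroup.invRev_append, List.take_append_drop]
  have h2 : (FreeGroup.invRev (L.drop k)).length = L.length - k := by
    rw [FreeGroup.invRev_length, List.length_drop]
  rw [h1, ← h2, List.take_left]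

theorem take_succ' (L : List (Fin 3 × Bool)) (p0 : Fin 3 × Bool) (k : ℕ) (hk : k < L.length) :
    L.take (k + 1) = L.take k ++ [L.getD k p0] := by
  rw [List.take_succ_eq_append_getElem hk, List.getD_eq_getElem _ _ hk]

theorem drop_eq (L : List (Fin 3 × Bool)) (p0 : Fin 3 × Bool) (k : ℕ) (hk : k < L.length) :
    L.drop k = L.getD k p0 :: L.drop (k + 1) := by
  rw [List.drop_eq_getElem_cons hk, List.getD_eq_getElem _ _ hk]

theorem a7 (h4 : S_A4) (h6a : S_A6a) (h6b : S_A6b) (h7a : S_A7a) : S_A7 := by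
  intro t r ht0 ht1 hr0 hr1 g
  set M : ℝ := |cs t - cs r| * (2 / (1 - t) + 2 / (1 - r)) +
    |t - r| * (4 / ((1 - t) * (1 - r)) + 1) with hM
  have htt : 0 < 1 - t := by linarith
  have hrr : 0 < 1 - r := by linarith
  have hM0 : 0 ≤ M := by positivity
  have hred : FreeGroup.IsReduced g.toWord := FreeGroup.isReduced_toWord
  have hg : g = FreeGroup.mk g.toWord := FreeGroup.mk_toWord.symm
  set L := g.toWord with hL
  set n := L.length with hn
  have key : ∀ η ξ : K0, ‖⟪η, rp t g ξ - rp r g ξ⟫_ℂ‖ ≤ M * ‖ξ‖ * ‖η‖ := by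
    intro η ξ
    have hL' : FreeGroup.IsReduced (FreeGroup.invRev L) := red_inv hred
    set L' := FreeGroup.invRev L with hL'def
    have hlen : L'.length = n := FreeGroup.invRev_length
    set a : ℕ → ℂ := fun k => ⟪η, dl (FreeGroup.mk (L.take (k + 1)))⟫_ℂ with ha
    set b : ℕ → ℂ := fun k => ⟪η, vv t (L.take k)⟫_ℂ with hb
    set a' : ℕ → ℂ := fun k => ⟪dl (FreeGroup.mk (L'.take (n - k))), ξ⟫_ℂ with ha'
    set b' : ℕ → ℂ := fun k => ⟪vv r (L'.take (n - (k + 1))), ξ⟫_ℂ with hb'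
    have hterm : ∀ k ∈ Finset.range n, ⟪η, rp t (FreeGroup.mk (L.take k))
        (rp t (lt (L.getD k default)) (rp r (FreeGroup.mk (L.drop (k + 1))) ξ) -
          rp r (lt (L.getD k default)) (rp r (FreeGroup.mk (L.drop (k + 1))) ξ))⟫_ℂ =
        ((cs t - cs r : ℝ) : ℂ) * (b' k * a k + a' k * b k) +
          ((t - r : ℝ) : ℂ) * (b' k * b k - a' k * a k) := by
      intro k hk
      rw [Finset.mem_range] at hk
      set p := L.getD k default with hp
      set z := rp r (FreeGroup.mk (L.drop (k + 1))) ξ with hz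
      have htk : L.take (k + 1) = L.take k ++ [p] := take_succ' L default k hk
      have hdk : L.drop k = p :: L.drop (k + 1) := drop_eq L default k hk
      have hr1' : FreeGroup.IsReduced (L.take k ++ [p]) := by
        rw [← htk]
        exact List.IsChain.take hred _
      have e1 : rp t (FreeGroup.mk (L.take k)) (dl (lt p)) = dl (FreeGroup.mk (L.take (k + 1))) := by
        rw [htk]
        exact h4 t ht0 ht1.le _ _ hr1'
      have hinv : FreeGroup.invRev (L.drop (k + 1)) = L'.take (n - (k + 1)) :=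
        (take_inv L (k + 1) hk).symm
      have hinv0 : FreeGroup.invRev (L.drop k) = L'.take (n - k) := (take_inv L k hk.le).symm
      have e2 : ⟪dl 1, z⟫_ℂ = b' k := by
        rw [hz, inner_shift, ← map_inv, FreeGroup.inv_mk, hinv]
        rfl
      have e3 : ⟪dl (lt p)⁻¹, z⟫_ℂ = a' k := by
        rw [hz, inner_shift, ← map_inv, FreeGroup.inv_mk, hinv]
        have hq : (lt p)⁻¹ = lt (p.1, !p.2) := rfl
        have hcat : L'.take (n - (k + 1)) ++ [(p.1, !p.2)] = L'.take (n - k) := by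
          rw [← hinv, ← hinv0, hdk, FreeGroup.invRev_cons]
          rfl
        have hr2 : FreeGroup.IsReduced (L'.take (n - (k + 1)) ++ [(p.1, !p.2)]) := by
          rw [hcat]
          exact List.IsChain.take hL' _
        rw [hq, h4 r hr0 hr1.le _ _ hr2, hcat]
      rw [h7a t r ht0 ht1.le hr0 hr1.le p z, e2, e3]
      simp only [map_add, map_sub, map_smul, e1, inner_add_right, inner_sub_right,
        inner_smul_right]
      have e4 : rp t (FreeGroup.mk (L.take k)) (dl 1) = vv t (L.take k) := rfl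
      rw [e4]
    have hsum : ⟪η, rp t g ξ - rp r g ξ⟫_ℂ = ∑ k ∈ Finset.range n,
        (((cs t - cs r : ℝ) : ℂ) * (b' k * a k + a' k * b k) +
          ((t - r : ℝ) : ℂ) * (b' k * b k - a' k * a k)) := by
      rw [hg, tele t r default L ξ, inner_sum]
      exact Finset.sum_congr rfl hterm
    have hsub : ∀ F : ℕ → ℝ, (∀ k, 0 ≤ F k) →
        ∑ k ∈ Finset.range n, F k ≤ ∑ k ∈ Finset.range (n + 1), F k := fun F hF => by
      rw [Finset.sum_range_succ]
      linarith [hF n]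
    have hsub1 : ∀ F : ℕ → ℝ, (∀ k, 0 ≤ F k) →
        ∑ k ∈ Finset.range n, F (k + 1) ≤ ∑ k ∈ Finset.range (n + 1), F k := fun F hF => by
      rw [Finset.sum_range_succ']
      linarith [hF 0]
    have Ba : ∑ k ∈ Finset.range n, ‖a k‖ ^ 2 ≤ ‖η‖ ^ 2 :=
      (hsub1 (fun k => ‖⟪η, dl (FreeGroup.mk (L.take k))⟫_ℂ‖ ^ 2) (fun k => sq_nonneg _)).trans
        (h6a L hred η)
    have Bb : ∑ k ∈ Finset.range n, ‖b k‖ ^ 2 ≤ (2 / (1 - t) * ‖η‖) ^ 2 := by
      rw [mul_pow]
      exact (hsub (fun k => ‖⟪η, vv t (L.take k)⟫_ℂ‖ ^ 2) (fun k => sq_nonneg _)).trans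
        (h6b t ht0 ht1 L hred η)
    have Ba' : ∑ k ∈ Finset.range n, ‖a' k‖ ^ 2 ≤ ‖ξ‖ ^ 2 := by
      have h1 : ∑ k ∈ Finset.range n, ‖a' k‖ ^ 2 =
          ∑ k ∈ Finset.range n, ‖⟪ξ, dl (FreeGroup.mk (L'.take (k + 1)))⟫_ℂ‖ ^ 2 := by
        rw [← Finset.sum_range_reflect]
        refine Finset.sum_congr rfl fun k hk => ?_
        rw [Finset.mem_range] at hk
        have e : n - (n - 1 - k) = k + 1 := by omega
        simp only [ha', e]
        rw [norm_inner_symm]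
      rw [h1]
      have h2 := h6a L' hL' ξ
      rw [hlen] at h2
      exact (hsub1 (fun k => ‖⟪ξ, dl (FreeGroup.mk (L'.take k))⟫_ℂ‖ ^ 2)
        (fun k => sq_nonneg _)).trans h2
    have Bb' : ∑ k ∈ Finset.range n, ‖b' k‖ ^ 2 ≤ (2 / (1 - r) * ‖ξ‖) ^ 2 := by
      have h1 : ∑ k ∈ Finset.range n, ‖b' k‖ ^ 2 =
          ∑ k ∈ Finset.range n, ‖⟪ξ, vv r (L'.take k)⟫_ℂ‖ ^ 2 := by
        rw [← Finset.sum_range_reflect]
        refine Finset.sum_congr rfl fun k hk => ?_
        rw [Finset.mem_range] at hk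
        have e : n - (n - 1 - k + 1) = k := by omega
        simp only [hb', e]
        rw [norm_inner_symm]
      rw [h1, mul_pow]
      have h2 := h6b r hr0 hr1 L' hL' ξ
      rw [hlen] at h2
      exact (hsub (fun k => ‖⟪ξ, vv r (L'.take k)⟫_ℂ‖ ^ 2) (fun k => sq_nonneg _)).trans h2
    have hfin := est n a b a' b' ‖η‖ (2 / (1 - t) * ‖η‖) ‖ξ‖ (2 / (1 - r) * ‖ξ‖) (cs t - cs r) (t - r)
      (norm_nonneg _) (by positivity) (norm_nonneg _) (by positivity) Ba Bb Ba' Bb'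
    rw [← hsum] at hfin
    refine hfin.trans (le_of_eq ?_)
    rw [hM]
    field_simp
    ring
  refine ContinuousLinearMap.opNorm_le_bound _ hM0 fun ξ => ?_
  have h1 : (cl (rp t g) - cl (rp r g)) ξ = rp t g ξ - rp r g ξ := rfl
  rw [h1]
  set η := rp t g ξ - rp r g ξ with hη
  have h2 := key η ξ
  rw [← hη, inner_self_eq_norm_sq_to_K, norm_pow] at h2
  simp only [Complex.coe_algebraMap, Complex.norm_real, norm_norm] at h2
  rcases (norm_nonneg η).eq_or_lt with h0 | h0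
  · rw [← h0]
    positivity
  · have h3 : ‖η‖ * ‖η‖ ≤ M * ‖ξ‖ * ‖η‖ := by rw [← sq]; exact h2
    exact le_of_mul_le_mul_right h3 h0

end

end Pool.Agent.W933.SK
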